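import Pool.Agent.H992R3.NU.Core

set_option autoImplicit false

open MeasureTheory Set Filter Topology

namespace Pool.Agent.H992R3.NU

open Pool.Agent.H329R3.NU Pool.Agent.H329R3.PM

lemma thconv2 (hk : KInt) {A κ e δ0 B T1 : ℝ} {h : ℕ → ℝ × ℝ → ℝ} (d : Dat A κ e δ0 B T1 h)
    {φ : ℕ → ℕ} {w : ℝ × ℝ → ℝ}
    (hW : ∀ᵐ z ∂((volume : Measure (ℝ × ℝ)).restrict Om),
      Tendsto (fun j => W (h (φ j)) z) atTop (𝓝 (w z))) :
    ∀ᵐ z ∂((volume : Measure (ℝ × ℝ)).restrict Om),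
      Tendsto (fun j => Th A κ (h (φ j)) z) atTop (𝓝 (Sth A κ w z)) := by
  filter_upwards [ae_snd (thconv hk d hW), ae_restrict_mem measurableSet_Om] with z hz hzm
  exact hz z.1 ⟨hzm.1.1, hzm.1.2.le⟩

lemma fluxconv (hk : KInt) {A κ e δ0 B T1 : ℝ} {h : ℕ → ℝ × ℝ → ℝ} (d : Dat A κ e δ0 B T1 h)
    {φ : ℕ → ℕ} (hφ : StrictMono φ) {w : ℝ × ℝ → ℝ}
    (hW : ∀ᵐ z ∂((volume : Measure (ℝ × ℝ)).restrict Om),
      Tendsto (fun j => W (h (φ j)) z) atTop (𝓝 (w z)))
    (hD : Tendsto (fun k => D A κ (h k)) atTop (𝓝 0)) :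
    ∀ᵐ z ∂((volume : Measure (ℝ × ℝ)).restrict Om),
      Tendsto (fun j => Fl κ (h (φ j)) z) atTop (𝓝 (Sth A κ w z * √(w z))) := by
  obtain ⟨nu, hnu⟩ : ∃ nu : ℝ × ℝ → ℝ, ∀ z ∈ Qc, Tendsto (fun k => Nu κ (h k) z) atTop (𝓝 (nu z)) :=
    ⟨fun z => limUnder atTop (fun k => Nu κ (h k) z), fun z hz => CauchySeq.tendsto_limUnder (d.nuC z hz)⟩
  have hTh := thconv2 hk d hW
  set F : ℕ → ℝ × ℝ → ℝ := fun j z =>
    (W (h (φ j)) z - (Fl κ (h (φ j)) z / Th A κ (h (φ j)) z) ^ 2) ^ 2 * z.1 ^ 2 with hF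
  set G : ℝ × ℝ → ℝ := fun z => (w z - (nu z * w z / Sth A κ w z) ^ 2) ^ 2 * z.1 ^ 2 with hG
  have hFm : ∀ j, AEStronglyMeasurable (F j) ((volume : Measure (ℝ × ℝ)).restrict Om) := by
    intro j
    have m1 := meas_W (d.sm1 (φ j))
    have m2 : Measurable (Fl κ (h (φ j))) := meas_Fl (d.sm1 (φ j))
    have m3 : Measurable (Th A κ (h (φ j))) := meas_Sth hk.1 m1
    exact (((m1.sub ((m2.div m3).pow_const 2)).pow_const 2).mul
      (measurable_fst.pow_const 2)).aestronglyMeasurable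
  have hlimit : ∀ᵐ z ∂((volume : Measure (ℝ × ℝ)).restrict Om),
      Tendsto (fun j => F j z) atTop (𝓝 (G z)) := by
    filter_upwards [hW, hTh, ae_restrict_mem measurableSet_Om] with z hz1 hz2 hzm
    have hq := Om_sub hzm
    have hn := (hnu z hq).comp hφ.tendsto_atTop
    have hpos : Sth A κ w z ≠ 0 := by
      have : δ0 / 2 ≤ Sth A κ w z := ge_of_tendsto' hz2 (fun j => d.thlo _ z hq)
      have := d.d0
      linarith [this]
    have hfl : Tendsto (fun j => Fl κ (h (φ j)) z) atTop (𝓝 (nu z * w z)) := by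
      have := hn.mul hz1
      refine this.congr (fun j => ?_)
      exact (d.FlNW (φ j) z hq).symm
    exact ((hz1.sub ((hfl.div hz2 hpos).pow 2)).pow 2).mul_const _
  have hbound : ∀ j, ∀ᵐ z ∂((volume : Measure (ℝ × ℝ)).restrict Om), ‖F j z‖ ≤ B ^ 2 := by
    intro j
    filter_upwards [ae_restrict_mem measurableSet_Om] with z hzm
    have hq := Om_sub hzm
    have h1 := (d.Wpos (φ j) _ hq).le
    have h2 := d.WB (φ j) _ hq
    have h3 := d.FlTh (φ j) _ hq
    have h4 : 0 < Th A κ (h (φ j)) z := by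
      have := d.thlo (φ j) z hq
      have := d.d0
      linarith
    have h5 : (Fl κ (h (φ j)) z / Th A κ (h (φ j)) z) ^ 2 ≤ W (h (φ j)) z := by
      rw [div_pow, div_le_iff₀ (by positivity)]
      linarith
    have h6 : 0 ≤ (Fl κ (h (φ j)) z / Th A κ (h (φ j)) z) ^ 2 := sq_nonneg _
    have h7 : |W (h (φ j)) z - (Fl κ (h (φ j)) z / Th A κ (h (φ j)) z) ^ 2| ≤ B := by
      rw [abs_le]
      constructor <;> linarith [d.B0]
    have h8 : (W (h (φ j)) z - (Fl κ (h (φ j)) z / Th A κ (h (φ j)) z) ^ 2) ^ 2 ≤ B ^ 2 := by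
      rw [← sq_abs]
      exact pow_le_pow_left₀ (abs_nonneg _) h7 2
    have h9 : z.1 ^ 2 ≤ 1 := by
      have := hzm.1.1
      have := hzm.1.2
      nlinarith
    rw [Real.norm_of_nonneg (by positivity)]
    calc _ ≤ B ^ 2 * 1 := mul_le_mul h8 h9 (by positivity) (by positivity)
      _ = B ^ 2 := mul_one _
  have hint : Tendsto (fun j => ∫ z in Om, F j z) atTop (𝓝 (∫ z in Om, G z)) :=
    tendsto_integral_of_dominated_convergence (fun _ => B ^ 2) hFm (integrable_const _) hbound hlimit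
  have hint0 : ∫ z in Om, G z = 0 :=
    tendsto_nhds_unique hint (hD.comp hφ.tendsto_atTop)
  have hGm : AEStronglyMeasurable G ((volume : Measure (ℝ × ℝ)).restrict Om) :=
    aestronglyMeasurable_of_tendsto_ae atTop hFm hlimit
  have hGb : ∀ᵐ z ∂((volume : Measure (ℝ × ℝ)).restrict Om), ‖G z‖ ≤ B ^ 2 := by
    have hall := ae_all_iff.2 hbound
    filter_upwards [hall, hlimit] with z h1 h2
    exact le_of_tendsto' h2.norm h1
  have hGi : Integrable G ((volume : Measure (ℝ × ℝ)).restrict Om) :=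
    Integrable.of_bound hGm (B ^ 2) hGb
  have hG0 : G =ᵐ[(volume : Measure (ℝ × ℝ)).restrict Om] 0 :=
    (integral_eq_zero_iff_of_nonneg (fun z => by simp only [hG]; positivity) hGi).1 hint0
  filter_upwards [hG0, hW, hTh, ae_restrict_mem measurableSet_Om] with z hz0 hz1 hz2 hzm
  have hq := Om_sub hzm
  have hn := (hnu z hq).comp hφ.tendsto_atTop
  have hS : δ0 / 2 ≤ Sth A κ w z := ge_of_tendsto' hz2 (fun j => d.thlo _ z hq)
  have hSpos : 0 < Sth A κ w z := by
    have := d.d0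
    linarith
  have hw0 : 0 ≤ w z := ge_of_tendsto' hz1 (fun j => (d.Wpos _ z hq).le)
  have hnu0 : 0 ≤ nu z := by
    have h1 : κ / 2 ≤ nu z := ge_of_tendsto' hn (fun j => d.nulo _ z hq)
    have := d.k0
    linarith
  have hz3 : w z - (nu z * w z / Sth A κ w z) ^ 2 = 0 := by
    have h1 : (w z - (nu z * w z / Sth A κ w z) ^ 2) ^ 2 * z.1 ^ 2 = 0 := hz0
    have h2 : z.1 ^ 2 ≠ 0 := by
      have := hzm.1.1
      positivity
    have h3 := (mul_eq_zero.1 h1).resolve_right h2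
    exact pow_eq_zero_iff (two_ne_zero) |>.1 h3
  have hsq : √(w z) = nu z * w z / Sth A κ w z := by
    have h1 : w z = (nu z * w z / Sth A κ w z) ^ 2 := by linarith
    calc √(w z) = √((nu z * w z / Sth A κ w z) ^ 2) := by rw [← h1]
      _ = _ := Real.sqrt_sq (by positivity)
  have hkey : Sth A κ w z * √(w z) = nu z * w z := by
    rw [hsq, mul_div_cancel₀ _ hSpos.ne']
  rw [hkey]
  refine (hn.mul hz1).congr (fun j => ?_)
  exact (d.FlNW (φ j) z hq).symm

lemma weakconv {A κ e δ0 B T1 : ℝ} {h : ℕ → ℝ × ℝ → ℝ} (d : Dat A κ e δ0 B T1 h)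
    (hWeak : WeakId) {φ : ℕ → ℕ} {w : ℝ × ℝ → ℝ}
    (hW : ∀ᵐ z ∂((volume : Measure (ℝ × ℝ)).restrict Om),
      Tendsto (fun j => W (h (φ j)) z) atTop (𝓝 (w z)))
    (hFl : ∀ᵐ z ∂((volume : Measure (ℝ × ℝ)).restrict Om),
      Tendsto (fun j => Fl κ (h (φ j)) z) atTop (𝓝 (Sth A κ w z * √(w z))))
    (Φ : ℝ × ℝ → ℝ) (hΦ : Tst Φ) :
    (∫ z in Om, (w z * z.1 ^ 2 * dt Φ z +
      (Sth A κ w z * √(w z) - κ * w z) * z.1 ^ 3 * dy Φ z)) +
      ∫ y in Ioc (0 : ℝ) 1, y ^ 2 * Φ (y, 0) = 0 := by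
  obtain ⟨C, hC⟩ := (hΦ.cpt.fderiv (𝕜 := ℝ)).exists_bound_of_continuous
    (hΦ.smooth.continuous_fderiv (by norm_num))
  have hC0 : 0 ≤ C := (norm_nonneg _).trans (hC 0)
  have hdt : ∀ z, |dt Φ z| ≤ C := by
    intro z
    have h1 := (fderiv ℝ Φ z).le_opNorm ((0:ℝ), (1:ℝ))
    have h2 : ‖((0:ℝ), (1:ℝ))‖ = 1 := by simp [Prod.norm_def]
    rw [h2, mul_one] at h1
    exact h1.trans (hC z)
  have hdy : ∀ z, |dy Φ z| ≤ C := by
    intro z
    have h1 := (fderiv ℝ Φ z).le_opNorm ((1:ℝ), (0:ℝ))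
    have h2 : ‖((1:ℝ), (0:ℝ))‖ = 1 := by simp [Prod.norm_def]
    rw [h2, mul_one] at h1
    exact h1.trans (hC z)
  have hlim : Tendsto (fun j => ∫ z in Om, (W (h (φ j)) z * z.1 ^ 2 * dt Φ z +
      (Fl κ (h (φ j)) z - κ * W (h (φ j)) z) * z.1 ^ 3 * dy Φ z)) atTop
      (𝓝 (∫ z in Om, (w z * z.1 ^ 2 * dt Φ z +
      (Sth A κ w z * √(w z) - κ * w z) * z.1 ^ 3 * dy Φ z))) := by
    apply tendsto_integral_of_dominated_convergence
      (fun _ => B * C + ((κ + e) * B + κ * B) * C)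
    · intro j
      have m1 := meas_W (d.sm1 (φ j))
      have m2 : Measurable (Fl κ (h (φ j))) := meas_Fl (d.sm1 (φ j))
      have m3 := (cont_dt hΦ.smooth).measurable
      have m4 := (cont_dy hΦ.smooth).measurable
      exact (((m1.mul (measurable_fst.pow_const 2)).mul m3).add
        (((m2.sub (measurable_const.mul m1)).mul (measurable_fst.pow_const 3)).mul
          m4)).aestronglyMeasurable
    · exact integrable_const _
    · intro j
      filter_upwards [ae_restrict_mem measurableSet_Om] with z hzm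
      have hq := Om_sub hzm
      have h1 := (d.Wpos (φ j) _ hq).le
      have h2 := d.WB (φ j) _ hq
      have hz0 := hzm.1.1.le
      have hz1 := hzm.1.2.le
      have p2 : z.1 ^ 2 ≤ 1 := pow_le_one₀ hz0 hz1
      have p3 : z.1 ^ 3 ≤ 1 := pow_le_one₀ hz0 hz1
      have k0 := d.k0
      have e0 := d.e0
      have h3 : |Fl κ (h (φ j)) z - κ * W (h (φ j)) z| ≤ (κ + e) * B + κ * B := by
        have hN0 : 0 ≤ Nu κ (h (φ j)) z := by
          have := d.nulo (φ j) z hq
          linarith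
        have h4 : 0 ≤ Fl κ (h (φ j)) z := by
          rw [d.FlNW _ z hq]
          positivity
        have h5 : Fl κ (h (φ j)) z ≤ (κ + e) * B := by
          rw [d.FlNW _ z hq]
          exact mul_le_mul (d.nuup _ z hq) h2 h1 (by positivity)
        have h6 : κ * W (h (φ j)) z ≤ κ * B := mul_le_mul_of_nonneg_left h2 k0.le
        have h7 : 0 ≤ κ * W (h (φ j)) z := by positivity
        rw [abs_le]
        constructor <;> linarith [h4, h5, h6, h7]
      have hB0 := d.B0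
      rw [Real.norm_eq_abs]
      refine (abs_add_le _ _).trans (add_le_add ?_ ?_)
      · rw [abs_mul, abs_mul, abs_of_nonneg h1, abs_of_nonneg (by positivity : 0 ≤ z.1 ^ 2)]
        calc W (h (φ j)) z * z.1 ^ 2 * |dt Φ z| ≤ (B * 1) * C :=
              mul_le_mul (mul_le_mul h2 p2 (by positivity) hB0) (hdt z) (abs_nonneg _) (by positivity)
          _ = B * C := by ring
      · rw [abs_mul, abs_mul, abs_of_nonneg (by positivity : 0 ≤ z.1 ^ 3)]
        calc |Fl κ (h (φ j)) z - κ * W (h (φ j)) z| * z.1 ^ 3 * |dy Φ z|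
            ≤ (((κ + e) * B + κ * B) * 1) * C :=
              mul_le_mul (mul_le_mul h3 p3 (by positivity) (by positivity)) (hdy z)
                (abs_nonneg _) (by positivity)
          _ = _ := by ring
    · filter_upwards [hW, hFl] with z hz1 hz2
      exact ((hz1.mul_const _).mul_const _).add
        (((hz2.sub (hz1.const_mul κ)).mul_const _).mul_const _)
  have hall : ∀ j, (∫ z in Om, (W (h (φ j)) z * z.1 ^ 2 * dt Φ z +
      (Fl κ (h (φ j)) z - κ * W (h (φ j)) z) * z.1 ^ 3 * dy Φ z)) =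
      - ∫ y in Ioc (0 : ℝ) 1, y ^ 2 * Φ (y, 0) := by
    intro j
    have := hWeak κ (h (φ j)) (d.sm _) (d.cpt _) (d.sup _) Φ hΦ
    linarith
  have := tendsto_nhds_unique hlim (tendsto_const_nhds.congr (fun j => (hall j).symm))
  rw [this]
  ring

theorem taskCore : TaskCore := by
  intro hSeq hLim hWeak A κ ε hA hκ hε h0
  have hk : KInt := Pool.Agent.H595R3.PMKInt.taskKInt
  have hone : One := Pool.Agent.H30R3.PMOne.taskOne hk
  obtain ⟨δ0, hδ0, hδ⟩ := h0.strict
  obtain ⟨e, he⟩ : ∃ e : ℝ, e = min ε (min (δ0 / 2) (κ / 2)) := ⟨_, rfl⟩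
  have he0 : 0 < e := by rw [he]; positivity
  have he1 : e ≤ ε := by rw [he]; exact min_le_left _ _
  have he2 : e ≤ δ0 / 2 := by rw [he]; exact (min_le_right _ _).trans (min_le_left _ _)
  have he3 : e ≤ κ / 2 := by rw [he]; exact (min_le_right _ _).trans (min_le_right _ _)
  obtain ⟨h, hh0, hSt, hNear, hJ, hO⟩ := hSeq A κ e hA hκ he0 h0
  have d := mkDat hone hA hκ he0 hδ0 he2 he3 (fun z hz => (hδ z hz).2.2.1) h hh0 hSt hNear
  obtain ⟨B, hB⟩ : ∃ B : ℝ, B = (3 / 4 * A + e) ^ 2 / (κ / 2) ^ 2 := ⟨_, rfl⟩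
  obtain ⟨T1, hT1⟩ : ∃ T1 : ℝ, T1 = 3 / 4 * A + e := ⟨_, rfl⟩
  rw [← hB, ← hT1] at d
  have hB0 := d.B0
  obtain ⟨⟨c, hc⟩, φ, v, hφ, hv, hconv⟩ := hLim ((volume : Measure (ℝ × ℝ)).restrict Om)
    (fun k z => W (h k) z * z.1) B (fun k => (1 / 2) ^ k)
    (fun k => (meas_W (d.sm1 k)).mul measurable_fst)
    (fun k => by
      filter_upwards [ae_restrict_mem measurableSet_Om] with z hzm
      have hq := Om_sub hzm
      have h1 := (d.Wpos k _ hq).le
      have h2 := d.WB k _ hq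
      rw [abs_of_nonneg (mul_nonneg h1 hzm.1.1.le)]
      calc W (h k) z * z.1 ≤ B * 1 := mul_le_mul h2 hzm.1.2.le hzm.1.1.le hB0
        _ = B := mul_one _)
    (tendsto_pow_atTop_nhds_zero_of_lt_one (by norm_num) (by norm_num))
    (fun k l hkl => by
      refine (hO k l hkl).trans (le_of_eq ?_)
      apply integral_congr_ae
      filter_upwards with z
      ring)
  have hJc : Tendsto (fun k => J (h k)) atTop (𝓝 c) := by
    refine hc.congr (fun k => ?_)
    unfold J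
    apply integral_congr_ae
    filter_upwards with z
    ring
  have hDnn : ∀ k, 0 ≤ D A κ (h k) := by
    intro k
    exact integral_nonneg (fun z => by positivity)
  have hD : Tendsto (fun k => D A κ (h k)) atTop (𝓝 0) := by
    have h1 : Tendsto (fun k => 8 * (J (h (k + 1)) - J (h k) + (1 / 2 : ℝ) ^ k)) atTop
        (𝓝 (8 * (c - c + 0))) := by
      apply Tendsto.const_mul
      apply Tendsto.add
      · exact (hJc.comp (tendsto_add_atTop_nat 1)).sub hJc
      · exact tendsto_pow_atTop_nhds_zero_of_lt_one (by norm_num) (by norm_num)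
    have h2 : (8 * (c - c + 0) : ℝ) = 0 := by ring
    rw [h2] at h1
    refine squeeze_zero hDnn (fun k => ?_) h1
    have := hJ k
    linarith
  classical
  obtain ⟨w, hw⟩ : ∃ w : ℝ × ℝ → ℝ, w = fun z => if z.1 ∈ Ioc (0:ℝ) 1 ∧ z.2 ∈ Ioo (0:ℝ) 1 then
    max 0 (min B (v z / z.1)) else 0 := ⟨_, rfl⟩
  have hwm : Measurable w := by
    rw [hw]
    apply Measurable.ite
    · exact (measurable_fst measurableSet_Ioc).inter (measurable_snd measurableSet_Ioo)
    · exact measurable_const.max (measurable_const.min (hv.div measurable_fst))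
    · exact measurable_const
  have hW : ∀ᵐ z ∂((volume : Measure (ℝ × ℝ)).restrict Om),
      Tendsto (fun j => W (h (φ j)) z) atTop (𝓝 (w z)) := by
    filter_upwards [hconv, ae_restrict_mem measurableSet_Om] with z hz hzm
    have hq := Om_sub hzm
    have hz0 : z.1 ≠ 0 := hzm.1.1.ne'
    have h1 : Tendsto (fun j => W (h (φ j)) z) atTop (𝓝 (v z / z.1)) := by
      refine (hz.div_const z.1).congr (fun j => ?_)
      exact mul_div_cancel_right₀ _ hz0
    have h2 : 0 ≤ v z / z.1 := ge_of_tendsto' h1 (fun j => (d.Wpos _ z hq).le)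
    have h3 : v z / z.1 ≤ B := le_of_tendsto' h1 (fun j => d.WB _ z hq)
    have h4 : w z = v z / z.1 := by
      rw [hw]
      simp only
      rw [if_pos ⟨⟨hzm.1.1, hzm.1.2.le⟩, hzm.2⟩, min_eq_right h3, max_eq_right h2]
    rw [h4]
    exact h1
  have hFl := fluxconv hk d hφ hW hD
  refine ⟨w, hwm, ?_, ⟨B, ?_⟩, ?_, ⟨T1, ?_⟩, ?_, ?_⟩
  · intro z
    rw [hw]
    simp only
    split_ifs
    · exact le_max_left _ _
    · exact le_refl _
  · intro z
    rw [hw]
    simp only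
    split_ifs
    · exact max_le hB0 (min_le_left _ _)
    · exact hB0
  · intro z hz
    rw [hw]
    simp only
    rw [if_neg (fun hh => hz hh.1)]
  · filter_upwards [thconv hk d hW, ae_restrict_mem measurableSet_Ioo] with t ht htm y hy
    have hq : (y, t) ∈ Qc := ⟨hy, ⟨htm.1.le, htm.2.le⟩⟩
    have h1 := ht y hy
    have h2 : δ0 / 2 ≤ Sth A κ w (y, t) := ge_of_tendsto' h1 (fun j => d.thlo _ _ hq)
    have h3 : Sth A κ w (y, t) ≤ T1 := le_of_tendsto' h1 (fun j => d.thup _ _ hq)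
    rw [abs_of_nonneg (by linarith)]
    exact h3
  · filter_upwards [closeconv d hW] with t ht y hy
    exact (ht y hy).trans he1
  · intro Φ hΦ
    exact weakconv d hWeak hW hFl Φ hΦ

end Pool.Agent.H992R3.NU
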