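import Pool.Agent.H992R3.NU.Core0

set_option autoImplicit false

open MeasureTheory Set Filter Topology

namespace Pool.Agent.H992R3.NU

open Pool.Agent.H329R3.NU Pool.Agent.H329R3.PM

/-- the data extracted from the iteration -/
structure Dat (A κ e δ0 B T1 : ℝ) (h : ℕ → ℝ × ℝ → ℝ) : Prop where
  A0 : 0 < A
  k0 : 0 < κ
  e0 : 0 < e
  d0 : 0 < δ0
  B0 : 0 ≤ B
  sm : ∀ k, ContDiff ℝ 2 (h k)
  cpt : ∀ k, HasCompactSupport (h k)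
  sup : ∀ k, tsupport (h k) ⊆ Om
  hb : ∀ k z, |h k z| ≤ e
  thlo : ∀ k, ∀ z ∈ Qc, δ0 / 2 ≤ Th A κ (h k) z
  thup : ∀ k, ∀ z ∈ Qc, Th A κ (h k) z ≤ T1
  nulo : ∀ k, ∀ z ∈ Qc, κ / 2 ≤ Nu κ (h k) z
  nuup : ∀ k, ∀ z ∈ Qc, Nu κ (h k) z ≤ κ + e
  nuC : ∀ z ∈ Qc, CauchySeq (fun k => Nu κ (h k) z)
  Wpos : ∀ k, ∀ z ∈ Qc, 0 < W (h k) z
  WB : ∀ k, ∀ z ∈ Qc, W (h k) z ≤ B
  FlTh : ∀ k, ∀ z ∈ Qc, Fl κ (h k) z ^ 2 ≤ Th A κ (h k) z ^ 2 * W (h k) z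

lemma Dat.sm1 {A κ e δ0 B T1 : ℝ} {h : ℕ → ℝ × ℝ → ℝ} (d : Dat A κ e δ0 B T1 h) (k : ℕ) :
    ContDiff ℝ 1 (h k) := (d.sm k).of_le (by norm_num)

lemma Dat.FlNW {A κ e δ0 B T1 : ℝ} {h : ℕ → ℝ × ℝ → ℝ} (d : Dat A κ e δ0 B T1 h) (k : ℕ)
    (z : ℝ × ℝ) (hz : z ∈ Qc) : Fl κ (h k) z = Nu κ (h k) z * W (h k) z := by
  unfold Nu
  rw [div_mul_cancel₀ _ (d.Wpos k z hz).ne']

lemma mkDat (hone : One) {A κ e δ0 : ℝ} (hA : 0 < A) (hκ : 0 < κ) (he0 : 0 < e) (hδ0 : 0 < δ0)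
    (he2 : e ≤ δ0 / 2) (he3 : e ≤ κ / 2)
    (hδ : ∀ z ∈ Qc, δ0 ≤ Th A κ (fun _ => 0) z) (h : ℕ → ℝ × ℝ → ℝ) (hh0 : h 0 = fun _ => 0)
    (hSt : ∀ k, St A κ (h k))
    (hNear : ∀ k, Near A κ (e * (1 / 2) ^ (k + 1)) (h k) (h (k + 1))) :
    Dat A κ e δ0 ((3 / 4 * A + e) ^ 2 / (κ / 2) ^ 2) (3 / 4 * A + e) h := by
  have hTh : ∀ z ∈ Qc, ∀ k, |Th A κ (h k) z - Th A κ (fun _ => 0) z| ≤ e := by
    intro z hz
    have := geo (fun k => Th A κ (h k) z) e he0.le (fun k => (hNear k).2.1 z hz)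
    simpa only [hh0] using this
  have hNu : ∀ z ∈ Qc, ∀ k, |Nu κ (h k) z - κ| ≤ e := by
    intro z hz
    have := geo (fun k => Nu κ (h k) z) e he0.le (fun k => (hNear k).2.2 z hz)
    simpa only [hh0, Nu0] using this
  have thlo : ∀ k, ∀ z ∈ Qc, δ0 / 2 ≤ Th A κ (h k) z := by
    intro k z hz
    have h1 := abs_le.1 (hTh z hz k)
    have h2 := hδ z hz
    linarith [h1.1]
  have thup : ∀ k, ∀ z ∈ Qc, Th A κ (h k) z ≤ 3 / 4 * A + e := by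
    intro k z hz
    have h1 := abs_le.1 (hTh z hz k)
    have h2 := Th0 hone hA hκ z hz
    linarith [h1.2]
  have nulo : ∀ k, ∀ z ∈ Qc, κ / 2 ≤ Nu κ (h k) z := by
    intro k z hz
    have h1 := abs_le.1 (hNu z hz k)
    linarith [h1.1]
  have Wpos : ∀ k, ∀ z ∈ Qc, 0 < W (h k) z := by
    intro k z hz
    obtain ⟨δ, hδ, h1⟩ := (hSt k).strict
    exact hδ.trans_le (h1 z hz).1
  have FlTh : ∀ k, ∀ z ∈ Qc, Fl κ (h k) z ^ 2 ≤ Th A κ (h k) z ^ 2 * W (h k) z := by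
    intro k z hz
    obtain ⟨δ, hδ, h1⟩ := (hSt k).strict
    have h2 := (h1 z hz).2.2.2
    have h3 : 0 ≤ Th A κ (h k) z ^ 2 * W (h k) z := mul_nonneg (sq_nonneg _) (Wpos k z hz).le
    nlinarith
  refine ⟨hA, hκ, he0, hδ0, by positivity, fun k => (hSt k).smooth, fun k => (hSt k).cpt,
    fun k => (hSt k).supp, ?_, thlo, thup, nulo, ?_, ?_, Wpos, ?_, FlTh⟩
  · intro k z
    have := geo (fun k => h k z) e he0.le (fun k => (hNear k).1 z) k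
    simpa only [hh0, sub_zero] using this
  · intro k z hz
    have h1 := abs_le.1 (hNu z hz k)
    linarith [h1.2]
  · intro z hz
    exact cau _ e he0.le (fun k => (hNear k).2.2 z hz)
  · intro k z hz
    have w0 := Wpos k z hz
    have h1 := FlTh k z hz
    have h2 : Fl κ (h k) z = Nu κ (h k) z * W (h k) z := by
      unfold Nu
      rw [div_mul_cancel₀ _ w0.ne']
    rw [h2, mul_pow, pow_two (W (h k) z), ← mul_assoc] at h1
    have h3 : Nu κ (h k) z ^ 2 * W (h k) z ≤ Th A κ (h k) z ^ 2 := le_of_mul_le_mul_right h1 w0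
    have h4 : (κ / 2) ^ 2 ≤ Nu κ (h k) z ^ 2 :=
      pow_le_pow_left₀ (by positivity) (nulo k z hz) 2
    have h5 : Th A κ (h k) z ^ 2 ≤ (3 / 4 * A + e) ^ 2 :=
      pow_le_pow_left₀ (by linarith [thlo k z hz]) (thup k z hz) 2
    rw [le_div_iff₀ (by positivity)]
    calc W (h k) z * (κ / 2) ^ 2 ≤ W (h k) z * Nu κ (h k) z ^ 2 :=
          mul_le_mul_of_nonneg_left h4 w0.le
      _ = Nu κ (h k) z ^ 2 * W (h k) z := by ring
      _ ≤ _ := h3.trans h5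

/-- convergence of the nonlocal term -/
lemma thconv (hk : KInt) {A κ e δ0 B T1 : ℝ} {h : ℕ → ℝ × ℝ → ℝ} (d : Dat A κ e δ0 B T1 h)
    {φ : ℕ → ℕ} {w : ℝ × ℝ → ℝ}
    (hW : ∀ᵐ z ∂((volume : Measure (ℝ × ℝ)).restrict Om),
      Tendsto (fun j => W (h (φ j)) z) atTop (𝓝 (w z))) :
    ∀ᵐ t ∂(volume.restrict (Ioo (0:ℝ) 1)), ∀ y ∈ Ioc (0:ℝ) 1,
      Tendsto (fun j => Th A κ (h (φ j)) (y, t)) atTop (𝓝 (Sth A κ w (y, t))) := by
  filter_upwards [ae_swap hW, ae_restrict_mem measurableSet_Ioo] with t ht htm y hy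
  unfold Th Sth Sop
  apply Tendsto.const_mul
  rw [Measure.restrict_congr_set Ioo_ae_eq_Ioc] at ht
  apply tendsto_integral_of_dominated_convergence (fun ρ => ‖kk y ρ‖ * B)
  · intro j
    exact ((hk.1.comp (by fun_prop : Measurable (fun ρ : ℝ => (y, ρ)))).mul
      ((meas_W (d.sm1 (φ j))).comp (by fun_prop : Measurable (fun ρ : ℝ => (ρ, t))))).aestronglyMeasurable
  · exact (hk.2.2 y hy.1).norm.mul_const B
  · intro j
    filter_upwards [ae_restrict_mem measurableSet_Ioc] with ρ hρ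
    have hz : (ρ, t) ∈ Qc := ⟨hρ, ⟨htm.1.le, htm.2.le⟩⟩
    rw [norm_mul, Real.norm_of_nonneg (d.Wpos (φ j) _ hz).le]
    exact mul_le_mul_of_nonneg_left (d.WB (φ j) _ hz) (norm_nonneg _)
  · filter_upwards [ht] with ρ hρ
    exact hρ.const_mul _

lemma closeconv {A κ e δ0 B T1 : ℝ} {h : ℕ → ℝ × ℝ → ℝ} (d : Dat A κ e δ0 B T1 h)
    {φ : ℕ → ℕ} {w : ℝ × ℝ → ℝ}
    (hW : ∀ᵐ z ∂((volume : Measure (ℝ × ℝ)).restrict Om),
      Tendsto (fun j => W (h (φ j)) z) atTop (𝓝 (w z))) :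
    ∀ᵐ t ∂(volume.restrict (Ioo (0:ℝ) 1)), ∀ y ∈ Ioc (0:ℝ) 1,
      |∫ ρ in Ioc (0 : ℝ) y, (w (ρ, t) - 1) * ρ ^ 2| ≤ e := by
  filter_upwards [ae_swap hW, ae_restrict_mem measurableSet_Ioo] with t ht htm y hy
  rw [Measure.restrict_congr_set Ioo_ae_eq_Ioc] at ht
  have hsub : Ioc (0:ℝ) y ⊆ Ioc 0 1 := Ioc_subset_Ioc_right hy.2
  have ht2 := ae_restrict_of_ae_restrict_of_subset hsub ht
  have hlim : Tendsto (fun j => ∫ ρ in Ioc (0:ℝ) y, (W (h (φ j)) (ρ, t) - 1) * ρ ^ 2) atTop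
      (𝓝 (∫ ρ in Ioc (0:ℝ) y, (w (ρ, t) - 1) * ρ ^ 2)) := by
    apply tendsto_integral_of_dominated_convergence (fun _ => B + 1)
    · intro j
      exact ((((meas_W (d.sm1 (φ j))).comp (by fun_prop : Measurable (fun ρ : ℝ => (ρ, t)))).sub
        measurable_const).mul (by fun_prop)).aestronglyMeasurable
    · exact integrable_const _
    · intro j
      filter_upwards [ae_restrict_mem measurableSet_Ioc] with ρ hρ
      have hz : (ρ, t) ∈ Qc := ⟨hsub hρ, ⟨htm.1.le, htm.2.le⟩⟩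
      have h1 := (d.Wpos (φ j) _ hz).le
      have h2 := d.WB (φ j) _ hz
      have h3 : |W (h (φ j)) (ρ, t) - 1| ≤ B + 1 := by
        rw [abs_le]; constructor <;> linarith
      have hρ1 : ρ ≤ 1 := (hsub hρ).2
      have h4 : ρ ^ 2 ≤ 1 := by nlinarith [hρ.1]
      rw [norm_mul, Real.norm_eq_abs, Real.norm_of_nonneg (by positivity : (0:ℝ) ≤ ρ ^ 2)]
      calc |W (h (φ j)) (ρ, t) - 1| * ρ ^ 2 ≤ (B + 1) * 1 :=
            mul_le_mul h3 h4 (by positivity) (by linarith [d.B0])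
        _ = B + 1 := mul_one _
    · filter_upwards [ht2] with ρ hρ
      exact (hρ.sub_const 1).mul_const _
  have hev : ∀ j, |∫ ρ in Ioc (0:ℝ) y, (W (h (φ j)) (ρ, t) - 1) * ρ ^ 2| ≤ e := by
    intro j
    rw [ftc (d.sm (φ j)) (d.sup (φ j)) y t hy.1.le]
    exact d.hb _ _
  exact le_of_tendsto' hlim.abs hev

end Pool.Agent.H992R3.NU
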