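import Pool.Agent.H329R3.NU.Stmts
import Pool.Agent.H595R3.PM_KInt
import Pool.Agent.H30R3.PMOne

set_option autoImplicit false

open MeasureTheory Set Filter Topology

namespace Pool.Agent.H992R3.NU

open Pool.Agent.H329R3.NU Pool.Agent.H329R3.PM

lemma geo (a : ℕ → ℝ) (e : ℝ) (he : 0 ≤ e) (h : ∀ k, |a (k+1) - a k| ≤ e * (1/2)^(k+1)) :
    ∀ k, |a k - a 0| ≤ e := by
  have key : ∀ k, |a k - a 0| ≤ e * (1 - (1/2)^k) := by
    intro k
    induction k with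
    | zero => simp
    | succ k ih =>
      calc |a (k+1) - a 0| = |(a (k+1) - a k) + (a k - a 0)| := by ring_nf
        _ ≤ |a (k+1) - a k| + |a k - a 0| := abs_add_le _ _
        _ ≤ e * (1/2)^(k+1) + e * (1 - (1/2)^k) := add_le_add (h k) ih
        _ = e * (1 - (1/2)^(k+1)) := by ring
  intro k
  refine (key k).trans ?_
  have : (0:ℝ) ≤ e * (1/2)^k := by positivity
  linarith

lemma cau (a : ℕ → ℝ) (e : ℝ) (he : 0 ≤ e) (h : ∀ k, |a (k+1) - a k| ≤ e * (1/2)^(k+1)) :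
    CauchySeq a := by
  apply cauchySeq_of_le_geometric (1/2) e (by norm_num)
  intro n
  rw [dist_comm, Real.dist_eq]
  refine (h n).trans ?_
  have : (0:ℝ) ≤ e * (1/2)^n := by positivity
  rw [pow_succ]; linarith

lemma cont_dy {h : ℝ × ℝ → ℝ} (hh : ContDiff ℝ 1 h) : Continuous (dy h) :=
  (hh.continuous_fderiv (by norm_num)).clm_apply continuous_const

lemma cont_dt {h : ℝ × ℝ → ℝ} (hh : ContDiff ℝ 1 h) : Continuous (dt h) :=
  (hh.continuous_fderiv (by norm_num)).clm_apply continuous_const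

lemma meas_W {h : ℝ × ℝ → ℝ} (hh : ContDiff ℝ 1 h) : Measurable (W h) := by
  unfold W
  exact measurable_const.add ((cont_dy hh).measurable.div (measurable_fst.pow_const 2))

lemma meas_Fl {κ : ℝ} {h : ℝ × ℝ → ℝ} (hh : ContDiff ℝ 1 h) : Measurable (Fl κ h) := by
  unfold Fl
  exact (measurable_const.mul (meas_W hh)).sub
    ((cont_dt hh).measurable.div (measurable_fst.pow_const 3))

lemma meas_Sth {A κ : ℝ} {w : ℝ × ℝ → ℝ} (hk : Measurable (fun p : ℝ × ℝ => kk p.1 p.2))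
    (hw : Measurable w) : Measurable (Sth A κ w) := by
  unfold Sth Sop
  have h1 : Measurable (fun p : (ℝ × ℝ) × ℝ => kk p.1.1 p.2 * w (p.2, p.1.2)) := by
    apply Measurable.mul
    · exact hk.comp (by fun_prop : Measurable (fun p : (ℝ × ℝ) × ℝ => (p.1.1, p.2)))
    · exact hw.comp (by fun_prop : Measurable (fun p : (ℝ × ℝ) × ℝ => (p.2, p.1.2)))
  have h2 : StronglyMeasurable (fun z : ℝ × ℝ => ∫ ρ in Ioc (0:ℝ) 1, kk z.1 ρ * w (ρ, z.2)) :=
    StronglyMeasurable.integral_prod_right' h1.stronglyMeasurable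
  exact (measurable_const.mul (by fun_prop)).mul h2.measurable

lemma ftc {h : ℝ × ℝ → ℝ} (hh : ContDiff ℝ 2 h) (hs : tsupport h ⊆ Om) (y t : ℝ) (hy : 0 ≤ y) :
    ∫ ρ in Ioc (0:ℝ) y, (W h (ρ, t) - 1) * ρ ^ 2 = h (y, t) := by
  have e1 : ∫ ρ in Ioc (0:ℝ) y, (W h (ρ, t) - 1) * ρ ^ 2 = ∫ ρ in Ioc (0:ℝ) y, dy h (ρ, t) := by
    apply setIntegral_congr_fun measurableSet_Ioc
    intro ρ hρ
    have : ρ ≠ 0 := hρ.1.ne'
    simp only [W]
    field_simp
    ring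
  rw [e1, ← intervalIntegral.integral_of_le hy]
  have hd : ∀ ρ ∈ uIcc 0 y, HasDerivAt (fun ρ => h (ρ, t)) (dy h (ρ, t)) ρ := by
    intro ρ _
    have h1 : HasFDerivAt h (fderiv ℝ h (ρ,t)) (ρ,t) :=
      (hh.differentiable (by norm_num) _).hasFDerivAt
    have h2 : HasDerivAt (fun ρ : ℝ => (ρ, t)) ((1:ℝ), (0:ℝ)) ρ :=
      (hasDerivAt_id ρ).prodMk (hasDerivAt_const ρ t)
    exact h1.comp_hasDerivAt ρ h2
  rw [intervalIntegral.integral_eq_sub_of_hasDerivAt hd]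
  · have : h (0, t) = 0 := image_eq_zero_of_notMem_tsupport (fun hm => by
      have := hs hm
      simp [Om] at this)
    rw [this]; ring
  · exact ((cont_dy (hh.of_le (by norm_num))).comp (by fun_prop)).intervalIntegrable _ _

lemma W0 (z : ℝ × ℝ) : W (fun _ => 0) z = 1 := by simp [W, dy]

lemma Fl0 (κ : ℝ) (z : ℝ × ℝ) : Fl κ (fun _ => 0) z = κ := by simp [Fl, W0, dt]

lemma Nu0 (κ : ℝ) (z : ℝ × ℝ) : Nu κ (fun _ => 0) z = κ := by simp [Nu, W0, Fl0]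

lemma Th0 (hone : One) {A κ : ℝ} (hA : 0 < A) (hκ : 0 < κ) (z : ℝ × ℝ) (hz : z ∈ Qc) :
    Th A κ (fun _ => 0) z ≤ 3 / 4 * A := by
  unfold Th Sth Sop
  simp only [W0, mul_one]
  obtain ⟨h1, h2⟩ := hone z.1 hz.1
  have h3 : Real.exp (-2 * κ * z.2) ≤ 1 := by
    rw [Real.exp_le_one_iff]
    have := hz.2.1
    nlinarith [mul_nonneg hκ.le this]
  have h4 : 0 < Real.exp (-2 * κ * z.2) := Real.exp_pos _
  calc A * (Real.exp (-2 * κ * z.2) / 2) * ∫ y in Ioc (0:ℝ) 1, kk z.1 y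
      ≤ A * (1 / 2) * (3 / 2) := by
        apply mul_le_mul _ h2 (by linarith) (by positivity)
        apply mul_le_mul_of_nonneg_left _ hA.le
        linarith
    _ = 3 / 4 * A := by ring

lemma measurableSet_Om : MeasurableSet Om := measurableSet_Ioo.prod measurableSet_Ioo

lemma Om_sub : Om ⊆ Qc := fun z hz => ⟨⟨hz.1.1, hz.1.2.le⟩, ⟨hz.2.1.le, hz.2.2.le⟩⟩

instance : IsFiniteMeasure ((volume : Measure (ℝ × ℝ)).restrict Om) := by
  constructor
  rw [Measure.restrict_apply_univ]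
  exact ((Metric.isBounded_Ioo 0 1).prod (Metric.isBounded_Ioo 0 1)).measure_lt_top

lemma mu_eq : (volume : Measure (ℝ × ℝ)).restrict Om =
    (volume.restrict (Ioo (0:ℝ) 1)).prod (volume.restrict (Ioo (0:ℝ) 1)) := by
  rw [Measure.prod_restrict, ← Measure.volume_eq_prod]
  rfl

lemma ae_swap {p : ℝ × ℝ → Prop} (h : ∀ᵐ z ∂((volume : Measure (ℝ × ℝ)).restrict Om), p z) :
    ∀ᵐ t ∂(volume.restrict (Ioo (0:ℝ) 1)), ∀ᵐ ρ ∂(volume.restrict (Ioo (0:ℝ) 1)), p (ρ, t) := by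
  rw [mu_eq] at h
  have h2 := (Measure.measurePreserving_swap (μ := volume.restrict (Ioo (0:ℝ) 1))
    (ν := volume.restrict (Ioo (0:ℝ) 1))).quasiMeasurePreserving.ae h
  exact Measure.ae_ae_of_ae_prod h2

lemma ae_snd {p : ℝ → Prop} (h : ∀ᵐ t ∂(volume.restrict (Ioo (0:ℝ) 1)), p t) :
    ∀ᵐ z ∂((volume : Measure (ℝ × ℝ)).restrict Om), p z.2 := by
  rw [mu_eq]
  exact Measure.quasiMeasurePreserving_snd.ae h

end Pool.Agent.H992R3.NU
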